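import Mathlib

set_option autoImplicit false

namespace Pool.Agent.H.MP_6e9b54_lc

open FirstOrder FirstOrder.Language Cardinal Filter Set

variable {L : FirstOrder.Language.{0, 0}} {M : Type} [L.Structure M]

def Cat (L : FirstOrder.Language.{0, 0}) (M : Type) [L.Structure M] : Prop :=
  ∀ (N : Type) [L.Structure N], #N = ℵ₀ → N ≅[L] M → Nonempty (N ≃[L] M)

theorem cat_of [Countable M] [Infinite M] (h : Categorical (ℵ₀ : Cardinal.{0}) (L.completeTheory M)) : Cat L M :=
  fun N _ h1 h2 => by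
    have : Nonempty N := h2.nonempty_iff.2 inferInstance
    have : N ⊨ L.completeTheory M := h2.symm.theory_model
    exact h (Theory.ModelType.of _ N) (Theory.ModelType.of _ M) h1 (mk_eq_aleph0 M)

theorem real [Countable L.Symbols] [Infinite M] (hc : Cat L M) {α ι : Type} [Countable α]
    (U : Ultrafilter ι) (w : ι → α → M) :
    ∃ v : α → M, ∀ φ : L.Formula α, φ.Realize v ↔ ∀ᶠ s in U, φ.Realize (w s) := by
  have e : M ≅[L] (U : Filter ι).Product fun _ => M := elementarilyEquivalent_iff.2 fun φ => by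
    simp [Ultraproduct.sentence_realize]
  have := e.infinite
  let x : α → (U : Filter ι).Product fun _ => M := fun a => ((fun s => w s a : ι → M) : _)
  obtain ⟨S, h1, h2⟩ := L.exists_elementarySubstructure_card_eq (range x) ℵ₀ le_rfl
    (lift_le.2 (le_aleph0_iff_set_countable.2 (countable_range x)))
    (lift_le.2 (mk_le_aleph0 (α := L.Symbols))) (by simp)
  obtain ⟨j⟩ := hc S (by simpa using h2) (S.elementarilyEquivalent.trans e.symm)
  refine ⟨j ∘ fun a => ⟨x a, h1 ⟨a, rfl⟩⟩, fun φ => ?_⟩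
  rw [StrongHomClass.realize_formula, ← S.subtype.map_formula]
  exact Ultraproduct.realize_formula_cast φ fun a s => w s a

def Iso (L : FirstOrder.Language.{0, 0}) {M α : Type} [L.Structure M] (c : α → M) : Prop :=
  ∃ θ : L.Formula α, θ.Realize c ∧
    ∀ c' : α → M, θ.Realize c' → ∀ φ : L.Formula α, φ.Realize c → φ.Realize c'

theorem dens [Countable L.Symbols] [Countable M] [Infinite M] (hc : Cat L M) {α : Type} [Finite α]
    (φ : L.Formula α) (c : α → M) (h : φ.Realize c) : ∃ c' : α → M, φ.Realize c' ∧ Iso L c' := by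
  by_contra! k
  obtain ⟨e, he⟩ := exists_surjective_nat (α → M)
  have st : ∀ (n : ℕ) (ψ : {ψ : L.Formula α // (∃ c : α → M, ψ.Realize c) ∧
      ∀ c : α → M, ψ.Realize c → φ.Realize c}), ∃ χ : {ψ : L.Formula α // (∃ c : α → M,
      ψ.Realize c) ∧ ∀ c : α → M, ψ.Realize c → φ.Realize c}, ¬χ.1.Realize (e n) ∧
        ∀ c : α → M, χ.1.Realize c → ψ.1.Realize c := fun n ψ => by
    by_cases l : ψ.1.Realize (e n)
    · have := k _ (ψ.2.2 _ l)
      simp only [Iso, not_exists, not_and, not_forall] at this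
      obtain ⟨c', a, χ, b, d⟩ := this _ l
      exact ⟨⟨ψ.1 ⊓ ∼χ, ⟨c', by simp [*]⟩, fun c h => ψ.2.2 c (by simp_all)⟩, by simp [*],
        by simp +contextual⟩
    · exact ⟨ψ, l, fun _ => id⟩
  choose f f1 f2 using st
  let s : ℕ → _ := fun n => Nat.rec (motive := fun _ => _) ⟨φ, ⟨c, h⟩, fun _ => id⟩ f n
  choose w hw using fun n => (s n).2.1
  have m : ∀ n, ∀ p ≥ n, ∀ c : α → M, (s p).1.Realize c → (s n).1.Realize c := fun n p h => by
    induction h with
    | refl => exact fun _ => id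
    | step _ ih => exact fun c l => ih c (f2 _ _ c l)
  obtain ⟨v, hv⟩ := real hc (hyperfilter ℕ) w
  obtain ⟨n, rfl⟩ := he v
  refine f1 n (s n) ((hv _).2 (Nat.hyperfilter_le_atTop ?_))
  filter_upwards [eventually_ge_atTop (n + 1)] with p hp using m _ p hp _ (hw p)

theorem tr {β γ : Type} (σ : γ → β ⊕ Unit) (v v' : β → M)
    (h : ∀ φ : L.Formula β, φ.Realize v → φ.Realize v') (χ : L.Formula γ) (b : M)
    (hb : χ.Realize (Sum.elim v (fun _ => b) ∘ σ)) :
    ∃ b', χ.Realize (Sum.elim v' (fun _ => b') ∘ σ) := by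
  have := h ((χ.relabel σ).iExs Unit) (by simpa using ⟨fun _ => b, hb⟩)
  simp only [Formula.realize_iExs, Formula.realize_relabel] at this
  obtain ⟨b', h⟩ := this
  exact ⟨b' (), h⟩

theorem sym {α : Type} {c c' : α → M} (h : ∀ φ : L.Formula α, φ.Realize c → φ.Realize c')
    (φ : L.Formula α) (k : φ.Realize c') : φ.Realize c :=
  by_contra fun l => by simpa [k] using h (∼φ) (by simpa using l)

theorem build (P : ∀ k, (Fin k → M) → Prop) (Q : ∀ k, (Fin k → M) → M → Prop) (h0 : P 0 Fin.elim0)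
    (hs : ∀ k c, P k c → ∃ b, P (k + 1) (Fin.snoc c b) ∧ Q k c b) :
    ∃ a : ℕ → M, ∀ k, P k (fun i => a i) ∧ Q k (fun i => a i) (a k) := by
  choose b hb hq using hs
  let s : ∀ k, {c // P k c} := fun k => Nat.rec (motive := fun k => {c // P k c}) ⟨_, h0⟩
    (fun k c => ⟨_, hb k c.1 c.2⟩) k
  refine ⟨fun k => b k (s k).1 (s k).2, fun k => ?_⟩
  have : ∀ k, (s k).1 = fun i : Fin k => b i (s i).1 (s i).2 := fun k => by
    induction k with
    | zero => exact Subsingleton.elim _ _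
    | succ k ih =>
      funext i
      change Fin.snoc (α := fun _ => M) (s k).1 (b k (s k).1 (s k).2) i = _
      refine Fin.lastCases (by simp) (fun i => ?_) i
      rw [Fin.snoc_castSucc]
      exact congrFun ih i
  exact this k ▸ ⟨(s k).2, hq k _ _⟩

def sg (α : Type) (k : ℕ) : α ⊕ Fin (k + 1) → (α ⊕ Fin k) ⊕ Unit :=
  Sum.elim (.inl ∘ .inl) (Fin.snoc (α := fun _ => _) (.inl ∘ .inr) (.inr ()))

theorem sg_eq {α : Type} {k : ℕ} (x : α → M) (c : Fin k → M) (b : M) :
    Sum.elim (Sum.elim x c) (fun _ => b) ∘ sg α k = Sum.elim x (Fin.snoc c b) := by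
  ext (i | i)
  · rfl
  · refine Fin.lastCases ?_ (fun i => ?_) i <;> simp [sg]

theorem sg_eq' {k : ℕ} (c : Fin k → M) (b : M) : Sum.elim c (fun _ : Unit => b) ∘
    Fin.snoc (α := fun _ => _) .inl (.inr ()) = Fin.snoc c b := by
  ext i
  refine Fin.lastCases ?_ (fun i => ?_) i <;> simp

theorem Iso.comp {α β : Type} [Finite α] [Finite β] {c : α → M} (h : Iso L c) (t : β → α) :
    Iso L (c ∘ t) := by
  obtain ⟨θ, h1, h2⟩ := h
  refine ⟨(θ.relabel Sum.inr ⊓ Formula.iInf fun i : β =>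
    (Term.var (.inl i)).equal (.var (.inr (t i)))).iExs α, by simpa using ⟨c, h1, fun _ => rfl⟩,
    fun c' h φ k => ?_⟩
  obtain ⟨x, a, b⟩ : ∃ x : α → M, θ.Realize x ∧ ∀ i, c' i = x (t i) := by simpa using h
  obtain rfl : c' = x ∘ t := funext b
  simpa using h2 x a (φ.relabel t) (by simpa using k)

theorem step [Countable L.Symbols] [Countable M] [Infinite M] (hc : Cat L M) {k : ℕ}
    {c : Fin k → M} (h : Iso L c) (φ : L.Formula (Fin (k + 1))) (b : M)
    (hb : φ.Realize (Fin.snoc c b)) :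
    ∃ b', φ.Realize (Fin.snoc c b') ∧ Iso L (Fin.snoc c b' : Fin (k + 1) → M) := by
  obtain ⟨θ, h1, h2⟩ := h
  obtain ⟨c', h3, χ, h4, h5⟩ := dens hc (φ ⊓ θ.relabel Fin.castSucc) (Fin.snoc c b)
    (by simpa [Function.comp_def] using ⟨hb, h1⟩)
  simp only [Formula.realize_inf, Formula.realize_relabel] at h3
  obtain ⟨b', h6⟩ := tr (Fin.snoc (α := fun _ => _) .inl (.inr ())) _ _ (sym (h2 _ h3.2)) χ
    (c' (Fin.last k)) (by rw [sg_eq']; exact (Fin.snoc_init_self c').symm ▸ h4)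
  rw [sg_eq'] at h6
  exact ⟨b', h5 _ h6 _ h3.1, χ, h6, fun d hd ψ l => h5 d hd ψ (sym (h5 _ h6) ψ l)⟩

theorem atomic [Countable L.Symbols] [Countable M] [Infinite M] (hc : Cat L M) {α : Type}
    [Finite α] (c : α → M) : Iso L c := by
  have : Nonempty (Σ m, L.Formula (Fin m ⊕ Fin 1)) := ⟨⟨0, ⊤⟩⟩
  obtain ⟨g, hg⟩ := exists_surjective_nat (Σ m, L.Formula (Fin m ⊕ Fin 1))
  obtain ⟨a, ha⟩ := build (M := M) (fun k c => Iso L c) (fun k c b => ∀ τ, g k.unpair.1 = τ →
    ∀ h : τ.1 ≤ k, ∀ b', τ.2.Realize (Sum.elim (c ∘ Fin.castLE h) fun _ => b') → τ.2.Realize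
        (Sum.elim (c ∘ Fin.castLE h) fun _ => b))
    ⟨⊤, by simp, fun c' _ φ h => Subsingleton.elim c' Fin.elim0 ▸ h⟩ fun k c h => by
      by_cases l : ∃ h : (g k.unpair.1).1 ≤ k, ∃ b', (g k.unpair.1).2.Realize
        (Sum.elim (c ∘ Fin.castLE h) fun _ => b')
      · obtain ⟨l, b, hb⟩ := l
        have e : ∀ b : M, Fin.snoc c b ∘ Sum.elim (Fin.castSucc ∘ Fin.castLE l)
            (fun _ : Fin 1 => Fin.last k) = Sum.elim (c ∘ Fin.castLE l) fun _ => b := fun b => by
          ext (i | i)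
          exacts [Fin.snoc_castSucc (α := fun _ => M) .., Fin.snoc_last (α := fun _ => M) ..]
        obtain ⟨b', h1, h2⟩ := step hc h ((g k.unpair.1).2.relabel (Sum.elim
          (Fin.castSucc ∘ Fin.castLE l) fun _ => Fin.last k)) b (by
            rwa [Formula.realize_relabel, e])
        rw [Formula.realize_relabel, e] at h1
        exact ⟨b', h2, fun _ t => t ▸ fun _ _ _ => h1⟩
      · obtain ⟨b', -, h2⟩ := step hc h ⊤ (Classical.arbitrary M) (by simp)
        exact ⟨b', h2, fun _ t => t ▸ fun x y z => absurd ⟨x, y, z⟩ l⟩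
  have bd : ∀ (β : Type) [Finite β] (x : β → M), (∀ i, x i ∈ range a) →
      ∃ m, ∃ t : β → Fin m, x = (fun i : Fin m => a i) ∘ t := fun β _ x h => by
    choose t ht using h
    obtain ⟨m, hm⟩ := (finite_range t).bddAbove
    exact ⟨m + 1, fun i => ⟨t i, Nat.lt_succ_of_le (hm ⟨i, rfl⟩)⟩, funext fun i => (ht i).symm⟩
  have md : L.MeetsDefinable (range a) := fun D ⟨b, hb⟩ h => by
    obtain ⟨A, h1, h2⟩ := definable_iff_finitely_definable.1 h
    obtain ⟨φ, hφ⟩ := definable_iff_exists_formula_sum.1 h2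
    obtain ⟨m, t, ht⟩ := bd (A : Set M) (↑) fun i => h1 i.2
    obtain ⟨j, hj⟩ := hg ⟨m, φ.relabel (Sum.map t id)⟩
    have e : ∀ b, b ∈ D ↔ (φ.relabel (Sum.map t id)).Realize
        (Sum.elim (fun i : Fin m => a i) fun _ => b) := fun b => by
      rw [Formula.realize_relabel, Sum.elim_comp_map, ← ht]
      exact Set.ext_iff.1 hφ fun _ => b
    have := (ha (j.pair m)).2 _ (by rw [Nat.unpair_pair, hj])
    exact ⟨_, (e _).2 (this (Nat.right_le_pair _ _) b ((e b).1 hb)), _, rfl⟩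
  let S := md.toElementarySubstructure
  have := S.elementarilyEquivalent.symm.infinite
  obtain ⟨j⟩ := hc S (mk_eq_aleph0 _) S.elementarilyEquivalent
  let e := S.subtype.comp j.symm.toElementaryEmbedding
  obtain ⟨m, t, ht⟩ := bd α (e ∘ c) fun i => md.closure_eq_self ▸ (j.symm (c i)).2
  obtain ⟨θ, h1, h2⟩ := ht ▸ (ha m).1.comp t
  exact ⟨θ, (e.map_formula _ _).1 h1, fun c' h φ k => (e.map_formula _ _).1
    (h2 _ ((e.map_formula _ _).2 h) φ ((e.map_formula _ _).2 k))⟩

theorem mkHom (w : M → M) (h : ∀ (β : Type) [Finite β] (φ : L.Formula β) (p : β → M),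
    (∀ s : M →[L] M, φ.Realize (s ∘ p)) → φ.Realize (w ∘ p)) : ∃ f : M →[L] M, ⇑f = w := by
  refine ⟨⟨w, fun {n} F x => ?_, fun {n} r x k => ?_⟩, rfl⟩
  · simpa [Function.comp_def] using h _ ((Term.var none).equal (.func F fun i => .var (some i)))
      (fun o => o.elim (Structure.funMap F x) x) fun s => by simp [Function.comp_def]
  · simpa [Function.comp_def] using h _ (r.formula fun i => .var i) x
      fun s => by simpa [Function.comp_def] using s.map_rel r x k

theorem homog [Countable L.Symbols] [Countable M] [Infinite M] (hc : Cat L M) {α : Type}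
    [Finite α] (x y : α → M) (h : ∀ φ : L.Formula α, φ.Realize x → φ.Realize y) :
    ∃ f : M →[L] M, ∀ i, f (x i) = y i := by
  obtain ⟨m, hm⟩ := exists_surjective_nat M
  choose ix hi using hm
  obtain ⟨a, ha⟩ := build (M := M) (fun k c => ∀ φ : L.Formula (α ⊕ Fin k),
    φ.Realize (Sum.elim x fun i => m i) → φ.Realize (Sum.elim y c)) (fun _ _ _ => True)
    (fun φ k => by
      have e : ∀ (z : α → M) (c : Fin 0 → M), z ∘ Sum.elim id Fin.elim0 = Sum.elim z c :=
        fun z c => by ext (i | i); exacts [rfl, i.elim0]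
      have := h (φ.relabel (Sum.elim id Fin.elim0))
      simp only [Formula.realize_relabel] at this
      exact e y _ ▸ this ((e x _).symm ▸ k)) fun k c hc' => by
      obtain ⟨θ, h1, h2⟩ := atomic hc (Sum.elim x fun i : Fin (k + 1) => m i)
      obtain ⟨b, hb⟩ := tr (sg α k) _ _ hc' θ (m k) (by
        rw [sg_eq]
        convert h1 with i
        refine Fin.lastCases ?_ (fun i => ?_) i <;> simp)
      exact ⟨b, h2 _ (sg_eq y c b ▸ hb), trivial⟩
  have k : ∀ (β : Type) [Finite β] (φ : L.Formula (α ⊕ β)) (p : β → M),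
      φ.Realize (Sum.elim x p) → φ.Realize (Sum.elim y (a ∘ ix ∘ p)) := fun β _ φ p l => by
    obtain ⟨n, hn⟩ := (finite_range (ix ∘ p)).bddAbove
    have := (ha (n + 1)).1 (φ.relabel (Sum.map id fun i =>
      ⟨ix (p i), Nat.lt_succ_of_le (hn ⟨i, rfl⟩)⟩))
    simp only [Formula.realize_relabel, Sum.elim_comp_map] at this
    simp only [Function.comp_def, hi] at this
    exact this l
  obtain ⟨f, hf⟩ := mkHom (L := L) (a ∘ ix) fun β _ φ p l => by
    simpa [Function.comp_def] using k β (φ.relabel Sum.inr) p (by simpa [Function.comp_def] using l (Hom.id L M))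
  exact ⟨f, fun i => by
    simpa [hf] using k Unit ((Term.var (.inr ())).equal (.var (.inl i))) (fun _ => x i) (by simp)⟩

theorem key [Countable L.Symbols] [Countable M] [Infinite M] (hc : Cat L M)
    (U : Ultrafilter (M →[L] M)) : ∃ g u : M →[L] M,
    (∀ a b, (∀ᶠ s : M →[L] M in U, s b ≠ a) → u b ≠ g a) ∧ ∀ K : Finset M,
      ∀ᶠ s : M →[L] M in U, ∃ h : M →[L] M,
      ∀ k ∈ K, h k = g k ∧ h (s k) = u k := by
  obtain ⟨v, hv⟩ := real hc U fun s : M →[L] M => Sum.elim id s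
  obtain ⟨g, hg⟩ := mkHom (L := L) (v ∘ .inl) fun β _ φ p l => by
    simpa [Function.comp_def] using (hv (φ.relabel (.inl ∘ p))).2 (.of_forall fun s => by
      simpa [Function.comp_def] using l (Hom.id L M))
  obtain ⟨u, hu⟩ := mkHom (L := L) (v ∘ .inr) fun β _ φ p l => by
    simpa [Function.comp_def] using (hv (φ.relabel (.inr ∘ p))).2 (.of_forall fun s => by
      simpa [Function.comp_def] using l s)
  refine ⟨g, u, fun a b h => ?_, fun K => ?_⟩
  · simpa [hg, hu] using (hv (∼((Term.var (.inr b)).equal (.var (.inl a))))).2 (by simpa using h)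
  obtain ⟨θ, h1, h2⟩ := atomic hc (v ∘ Sum.map (↑) (↑) : K ⊕ K → M)
  filter_upwards [(hv (θ.relabel (Sum.map (↑) (↑)))).1 (by simpa using h1)] with s hs
  rw [Formula.realize_relabel] at hs
  obtain ⟨h, k⟩ := homog hc _ _ (sym (h2 _ hs))
  exact ⟨h, fun i hi => ⟨hg ▸ k (.inl ⟨i, hi⟩), hu ▸ k (.inr ⟨i, hi⟩)⟩⟩

end Pool.Agent.H.MP_6e9b54_lc
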